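import Pool.Agent.Q181.LG.Stm
import Pool.Agent.Q181.LW.Law

set_option autoImplicit false
set_option linter.unusedSectionVars false

/-! Project LG of helper181, job LG-STR: no long tripods, structure. -/

namespace Pool.Agent.Q26.LG

open Matrix TH57.Thr TH6.LF Pool.Agent.Q181.TO Pool.Agent.Q181.LW
open Pool.Agent.Q181.LG (Gap1 Gapped S_tent S_g1 S_notri S_str)

theorem t_notri : S_g1 → S_tent → S_notri := by
  intro h1 ht G _ ι κ _ _ _ _ A K hgap hA b h
  obtain ⟨a, o, hT⟩ := triData_of_hasTripod A b _ h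
  have hb := norm_thr A _ hA
  have hg := h1 G ι κ A _ (sq_nonneg _) hgap
  rcases Nat.eq_zero_or_pos K with h0 | h0
  · subst h0
    have key : ∀ (p : G × ι) (q : G × κ), wt A (Sum.inl p) (Sum.inr q) = 0 := by
      intro p q
      have h3 := hg (rv {p} fun _ => 1)
      have h4 := coeff_sq_le (rv {p} (fun _ => 1) ᵥ* toReal A) q.2 q.1
      rw [coeff_rv_mul, Finset.sum_singleton, mul_one] at h4
      have h5 : (wt A (Sum.inl p) (Sum.inr q)) ^ 2 ≤ 0 := by
        refine h4.trans (h3.trans ?_)
        norm_num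
      exact pow_eq_zero_iff two_ne_zero |>.1 (le_antisymm h5 (sq_nonneg _))
    have h2 := hT.hW1 0 0 (by norm_num)
    have h3 : wt A (a 0 0) (a 0 (0 + 1)) = 0 := by
      rcases hu : a 0 0 with p | q
      · rcases hv : a 0 (0 + 1) with p' | q'
        · rfl
        · exact key _ _
      · rcases hv : a 0 (0 + 1) with p' | q'
        · rw [wt_symm]
          exact key _ _
        · rfl
    rw [h3, abs_zero] at h2
    norm_num at h2
  · have h2 := ht G ι κ A (1 / Real.sqrt 2) _ (by positivity) sq_inv_sqrt_two (by positivity)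
      hb _ a o hT le_rfl ((K : ℝ) ^ 2) hg (2 * K) (by omega) (by omega)
    push_cast at h2
    nlinarith [sq_nonneg (K : ℝ)]

theorem t_str : S_notri → S_str := by
  intro hn G _ ι κ _ _ _ _ A K hgap hA
  have h := hn G ι κ A K hgap hA
  exact ⟨Pool.Agent.Q181.LR.struct_of A fun b => Pool.Agent.Q181.LR.stab_vc_of A b _ (h b),
    fun htf => Pool.Agent.Q181.TO.structure_of A fun b =>
      Pool.Agent.Q181.TO.stab_cyclic_of htf A b _ (h b)⟩

end Pool.Agent.Q26.LG
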