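import Pool.Agent.Q181.LG.Stm
import Pool.Agent.Q181.LW.Law

set_option autoImplicit false
set_option linter.unusedSectionVars false

/-! Project LG of helper181, job LG-TENT: gap and long tripods. -/

namespace Pool.Agent.Q26.LG

open Matrix TH57.Thr TH6.LF Pool.Agent.Q181.TO Pool.Agent.Q181.LW
open Pool.Agent.Q181.LG (Gap1 Gapped S_tent S_g1 S_notri S_str)

variable {G : Type} [Group G] {ι κ : Type} [Fintype ι] [Fintype κ] [DecidableEq ι] [DecidableEq κ]

theorem sum_two {M : ℕ} (F : Fin M → ℝ) (f : ℕ → ℝ) (j : ℕ) (hj : j < M)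
    (h0 : ∀ l : Fin M, (l : ℕ) ≠ j → (l : ℕ) ≠ j + 1 → F l = 0)
    (h1 : F ⟨j, hj⟩ = f j) (h2 : ∀ h : j + 1 < M, F ⟨j + 1, h⟩ = f (j + 1))
    (h3 : j + 1 = M → f (j + 1) = 0) :
    ∑ l, F l = f j + f (j + 1) := by
  rcases Nat.lt_or_ge (j + 1) M with h | h
  · rw [Finset.sum_eq_add (⟨j, hj⟩ : Fin M) ⟨j + 1, h⟩, h1, h2 h]
    · intro h'
      have := congrArg Fin.val h'
      simp at this
    · rintro l - ⟨h4, h5⟩
      exact h0 l (fun h' => h4 (Fin.ext h')) (fun h' => h5 (Fin.ext h'))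
    · intro h'; exact absurd (Finset.mem_univ _) h'
    · intro h'; exact absurd (Finset.mem_univ _) h'
  · rw [h3 (by omega), add_zero, ← h1]
    refine Finset.sum_eq_single (⟨j, hj⟩ : Fin M) (fun l _ hl => ?_) fun h' =>
      absurd (Finset.mem_univ _) h'
    exact h0 l (fun h' => hl (Fin.ext h')) (by have := l.2; omega)

/-- the general form -/
theorem tent_gen (A : Matrix ι κ (MonoidAlgebra ℤ G)) (t δ : ℝ) (ht0 : 0 < t)
    (ht : t ^ 2 = 1 / 2) (hδ0 : 0 ≤ δ) (hA : NormLE A (3 * t + δ)) {N : ℕ}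
    {a : Fin 3 → ℕ → Vx G ι κ} {o : Vx G ι κ} (hT : TriData (wt A) N a o)
    (hδ : δ ≤ (1 / 2) ^ (N + 4)) (D : ℝ) (hB : Gap1 A D) (M : ℕ) (hN : 2 * M + 27 ≤ N)
    (c d : ℕ → ℝ) (hc0 : c 0 = 0) (hcM : c M = 0) (hcd : ∀ j, j < M → d j = c j - c (j + 1))
    (hd0 : d 0 = 0) (hdM : d M = 0) :
    ∑ j ∈ Finset.range M, d j ^ 2 ≤ D * ∑ j ∈ Finset.range M, (d j - d (j + 1)) ^ 2 := by
  classical
  have hI := isoArm_of A t δ ht0 ht hδ0 hA hT hδ
  obtain ⟨e, he3, he4, he⟩ : ∃ e, 3 ≤ e ∧ e ≤ 4 ∧ ∀ j, e + 2 * j ≤ N →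
      (a 0 (e + 2 * j)).isLeft = true := by
    have hs := side_arm (wt A) hT (fun v => v.isLeft) (wt_side A) 0
    rcases hol : o.isLeft with _ | _
    · refine ⟨3, le_rfl, by omega, fun j hj => ?_⟩
      have h1 := hs (3 + 2 * j) hj
      simp only [hol] at h1
      have h2 : (3 + 2 * j) % 2 = 1 := by omega
      rw [h1, h2]; rfl
    · refine ⟨4, by omega, le_rfl, fun j hj => ?_⟩
      have h1 := hs (4 + 2 * j) hj
      simp only [hol] at h1
      have h2 : (4 + 2 * j) % 2 = 0 := by omega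
      rw [h1, h2]; rfl
  have hadj : ∀ j, j < N → wt A (a 0 j) (a 0 (j + 1)) ≠ 0 := by
    intro j hj h
    have h1 := hT.hW1 0 j hj
    rw [h, abs_zero] at h1
    norm_num at h1
  have hrow : ∀ j : Fin (M + 1), ∃ p : G × ι, a 0 (e + 2 * j) = Sum.inl p := by
    intro j
    have h1 := he j (by omega)
    rcases h2 : a 0 (e + 2 * (j : ℕ)) with p | q
    · exact ⟨p, rfl⟩
    · rw [h2] at h1
      exact absurd h1 (by simp)
  have hcol : ∀ j : Fin M, ∃ q : G × κ, a 0 (e + 2 * j + 1) = Sum.inr q := by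
    intro j
    have h1 := he j (by omega)
    have h3 := wt_side A _ _ (hadj (e + 2 * j) (by omega))
    rcases h2 : a 0 (e + 2 * (j : ℕ) + 1) with p | q
    · rw [h1, h2] at h3
      exact absurd rfl h3
    · exact ⟨q, rfl⟩
  choose p hp using hrow
  choose q hq using hcol
  have hne : ∀ j l, j ≤ N → l ≤ N → a 0 j = a 0 l → j = l := by
    intro j l hj hl h
    rcases hT.hinj 0 0 j l hj hl h with h1 | h1
    · omega
    · exact h1.2
  have hpinj : Function.Injective p := by
    intro j l hjl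
    have h1 : a 0 (e + 2 * (j : ℕ)) = a 0 (e + 2 * (l : ℕ)) := by rw [hp, hp, hjl]
    have h2 := hne _ _ (by omega) (by omega) h1
    exact Fin.ext (by omega)
  have hqinj : Function.Injective q := by
    intro j l hjl
    have h1 : a 0 (e + 2 * (j : ℕ) + 1) = a 0 (e + 2 * (l : ℕ) + 1) := by rw [hq, hq, hjl]
    have h2 := hne _ _ (by omega) (by omega) h1
    exact Fin.ext (by omega)
  set w : ℕ → ℝ := fun k => wt A (a 0 k) (a 0 (k + 1)) with hw
  have hw1 : ∀ k, k + 2 ≤ N → w k * (sg w k * sg w (k + 1)) = 1 := by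
    intro k hk
    rw [sg_step]
    exact weight_one A t δ ht0 ht hδ0 hA hT hδ 0 k hk
  have hwa : ∀ k, k + 2 ≤ N → w k * sg w k = sg w (k + 1) := by
    intro k hk
    have h1 := hw1 k hk
    have h2 := sg_sq w (k + 1)
    calc w k * sg w k = w k * sg w k * (sg w (k + 1) * sg w (k + 1)) := by rw [h2, mul_one]
      _ = (w k * (sg w k * sg w (k + 1))) * sg w (k + 1) := by ring
      _ = sg w (k + 1) := by rw [h1, one_mul]
  have hwb : ∀ k, k + 2 ≤ N → w k * sg w (k + 1) = sg w k := by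
    intro k hk
    have h1 := hw1 k hk
    have h2 := sg_sq w k
    calc w k * sg w (k + 1) = w k * sg w (k + 1) * (sg w k * sg w k) := by rw [h2, mul_one]
      _ = (w k * (sg w k * sg w (k + 1))) * sg w k := by ring
      _ = sg w k := by rw [h1, one_mul]
  have hsq : ∀ (j k : ℕ) (x : ℝ), ((-1) ^ j * sg w k * x) ^ 2 = x ^ 2 := by
    intro j k x
    rw [mul_pow, mul_pow, ← pow_mul, mul_comm (j : ℕ) 2, pow_mul, sq (sg w _), sg_sq]
    norm_num
  -- the vector
  let val : ℕ → ℝ := fun j => (-1) ^ j * sg w (e + 2 * j) * c j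
  let gal : ℕ → ℝ := fun j => (-1) ^ j * sg w (e + 2 * j + 1) * d j
  let f : G × ι → ℝ := fun v => ∑ j : Fin (M + 1), if p j = v then val j else 0
  let P : Finset (G × ι) := Finset.univ.image p
  let Q : Finset (G × κ) := Finset.univ.image q
  have hfp : ∀ j, f (p j) = val j := by
    intro j
    simp only [f]
    rw [Finset.sum_eq_single j]
    · simp
    · intro l _ hl
      rw [if_neg fun h => hl (hpinj h)]
    · simp
  have hfP : ∀ v, v ∉ P → f v = 0 := by
    intro v hv
    simp only [f]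
    refine Finset.sum_eq_zero fun j _ => ?_
    rw [if_neg]
    intro h
    exact hv (Finset.mem_image.2 ⟨j, Finset.mem_univ _, h⟩)
  have hsumP : ∀ F : G × ι → ℝ, ∑ v ∈ P, F v = ∑ j, F (p j) := fun F =>
    Finset.sum_image fun x _ y _ h => hpinj h
  have hsumQ : ∀ F : G × κ → ℝ, ∑ v ∈ Q, F v = ∑ j, F (q j) := fun F =>
    Finset.sum_image fun x _ y _ h => hqinj h
  let g : G × κ → ℝ := fun v => ∑ j : Fin (M + 1), wt A (Sum.inl (p j)) (Sum.inr v) * val j
  have hcoef : ∀ (l : κ) (k : G), ((rv P f ᵥ* toReal A) l).coeff k = g (k, l) := by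
    intro l k
    rw [coeff_rv_mul, hsumP]
    refine Finset.sum_congr rfl fun j _ => ?_
    rw [hfp]
    rfl
  have hgQ : ∀ v, v ∉ Q → g v = 0 := by
    intro v hv
    refine Finset.sum_eq_zero fun j _ => ?_
    by_cases h0 : wt A (Sum.inl (p j)) (Sum.inr v) = 0
    · rw [h0, zero_mul]
    · rcases Nat.eq_zero_or_pos (j : ℕ) with hj | hj
      · simp only [val, hj, hc0, mul_zero]
      · rcases Nat.lt_or_ge (j : ℕ) M with hj2 | hj2
        · exfalso
          rw [← hp] at h0
          rcases hI 0 (e + 2 * j) (by omega) (by omega) _ h0 with h1 | h1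
          · have h2 : e + 2 * (j : ℕ) - 1 = e + 2 * ((j : ℕ) - 1) + 1 := by omega
            rw [h2] at h1
            have h3 := hq ⟨(j : ℕ) - 1, by omega⟩
            rw [← h1] at h3
            exact hv (Finset.mem_image.2 ⟨_, Finset.mem_univ _, (Sum.inr_injective h3).symm⟩)
          · have h3 := hq ⟨(j : ℕ), hj2⟩
            rw [← h1] at h3
            exact hv (Finset.mem_image.2 ⟨_, Finset.mem_univ _, (Sum.inr_injective h3).symm⟩)
        · have hj3 : (j : ℕ) = M := by have := j.2; omega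
          simp only [val, hj3, hcM, mul_zero]
  have hz : rv P f ᵥ* toReal A = rv Q g := by
    funext l
    ext k
    rw [hcoef, coeff_rv Q g hgQ]
  have hgq : ∀ j : Fin M, g (q j) = gal j := by
    intro j
    have hj := j.2
    have h1 : g (q j) = wt A (Sum.inl (p ⟨j, by omega⟩)) (Sum.inr (q j)) * val j
        + wt A (Sum.inl (p ⟨j + 1, by omega⟩)) (Sum.inr (q j)) * val (j + 1) := by
      simp only [g]
      rw [Finset.sum_eq_add (⟨j, by omega⟩ : Fin (M + 1)) ⟨(j : ℕ) + 1, by omega⟩]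
      · intro h; have := congrArg Fin.val h; simp at this
      · rintro l - ⟨h1, h2⟩
        have h3 : (l : ℕ) ≠ j := fun h => h1 (Fin.ext h)
        have h4 : (l : ℕ) ≠ j + 1 := fun h => h2 (Fin.ext h)
        rw [← hp, ← hq, hT.hW0 0 _ _ (by omega) (by omega) (by omega) (by omega), zero_mul]
      · intro h; exact absurd (Finset.mem_univ _) h
      · intro h; exact absurd (Finset.mem_univ _) h
    rw [← hp, ← hp, ← hq] at h1
    have h2 : wt A (a 0 (e + 2 * (j : ℕ))) (a 0 (e + 2 * (j : ℕ) + 1)) = w (e + 2 * j) := rfl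
    have h3 : wt A (a 0 (e + 2 * ((j : ℕ) + 1))) (a 0 (e + 2 * (j : ℕ) + 1))
        = w (e + 2 * j + 1) := by
      rw [wt_symm, show e + 2 * ((j : ℕ) + 1) = e + 2 * j + 1 + 1 by ring]
    rw [h2, h3] at h1
    have h4 := hwa (e + 2 * j) (by omega)
    have h5 := hwb (e + 2 * j + 1) (by omega)
    rw [h1]
    simp only [val, gal]
    have h7 : e + 2 * ((j : ℕ) + 1) = e + 2 * j + 1 + 1 := by ring
    rw [h7, pow_succ, hcd j hj]
    linear_combination ((-1) ^ (j : ℕ) * c j) * h4 - ((-1) ^ (j : ℕ) * c (j + 1)) * h5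
  -- the second product
  let g2 : G × ι → ℝ := fun u => ∑ j : Fin M, wt A (Sum.inr (q j)) (Sum.inl u) * gal j
  have hcoef2 : ∀ (l : ι) (k : G),
      ((rv Q g ᵥ* toReal (adj A)) l).coeff k = g2 (k, l) := by
    intro l k
    rw [coeff_rv_mul, hsumQ]
    refine Finset.sum_congr rfl fun j _ => ?_
    rw [hgq, coeff_adj]
    congr 2
    change (A l (q j).2).coeff _ = (A l (q j).2).coeff _
    rw [_root_.mul_inv_rev, inv_inv]
  have hg2P : ∀ u, u ∉ P → g2 u = 0 := by
    intro u hu
    refine Finset.sum_eq_zero fun j _ => ?_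
    by_cases h0 : wt A (Sum.inr (q j)) (Sum.inl u) = 0
    · rw [h0, zero_mul]
    · exfalso
      have hj := j.2
      rw [← hq] at h0
      rcases hI 0 (e + 2 * j + 1) (by omega) (by omega) _ h0 with h1 | h1
      · have h2 : e + 2 * (j : ℕ) + 1 - 1 = e + 2 * (j : ℕ) := by omega
        rw [h2] at h1
        have h3 := hp ⟨(j : ℕ), by omega⟩
        rw [← h1] at h3
        exact hu (Finset.mem_image.2 ⟨_, Finset.mem_univ _, (Sum.inl_injective h3).symm⟩)
      · have h2 : e + 2 * (j : ℕ) + 1 + 1 = e + 2 * ((j : ℕ) + 1) := by ring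
        rw [h2] at h1
        have h3 := hp ⟨(j : ℕ) + 1, by omega⟩
        rw [← h1] at h3
        exact hu (Finset.mem_image.2 ⟨_, Finset.mem_univ _, (Sum.inl_injective h3).symm⟩)
  have hz2 : rv Q g ᵥ* toReal (adj A) = rv P g2 := by
    funext l
    ext k
    rw [hcoef2, coeff_rv P g2 hg2P]
  have hg20 : g2 (p 0) = 0 := by
    refine Finset.sum_eq_zero fun j _ => ?_
    have hj := j.2
    rcases Nat.eq_zero_or_pos (j : ℕ) with h1 | h1
    · simp only [gal, h1, hd0, mul_zero]
    · rw [← hp, ← hq]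
      have h2 : ((0 : Fin (M + 1)) : ℕ) = 0 := rfl
      rw [h2, hT.hW0 0 _ _ (by omega) (by omega) (by omega) (by omega), zero_mul]
  have hg2s : ∀ j : Fin M, g2 (p j.succ) ^ 2 = (d j - d (j + 1)) ^ 2 := by
    intro j
    have hj := j.2
    have h1 : g2 (p j.succ) = w (e + 2 * j + 1) * gal j
        + w (e + 2 * (j + 1)) * gal (j + 1) := by
      refine sum_two _ (fun l => (if l = j then w (e + 2 * j + 1) else w (e + 2 * (j + 1))) * gal l)
        (j : ℕ) hj (fun l hl1 hl2 => ?_) ?_ (fun h => ?_) (fun h => ?_) |>.trans ?_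
      · have hl := l.2
        rw [← hp, ← hq, Fin.val_succ, hT.hW0 0 _ _ (by omega) (by omega) (by omega) (by omega),
          zero_mul]
      · rw [← hp, ← hq, Fin.val_succ, if_pos rfl]
        rfl
      · rw [← hp, ← hq, Fin.val_succ, if_neg (by omega), wt_symm]
      · simp only [gal, h, hdM, mul_zero]
      · simp only [if_true]
        rw [if_neg (by omega)]
    have h4 := hwa (e + 2 * j + 1) (by omega)
    have h5 := hwb (e + 2 * (j + 1)) (by omega)
    have h7 : e + 2 * ((j : ℕ) + 1) = e + 2 * j + 1 + 1 := by ring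
    have h6 : g2 (p j.succ) = (-1) ^ (j : ℕ) * sg w (e + 2 * j + 1 + 1) * (d j - d (j + 1)) := by
      rw [h1]
      simp only [gal]
      rw [h7, pow_succ] at *
      linear_combination ((-1) ^ (j : ℕ) * d j) * h4 - ((-1) ^ (j : ℕ) * d (j + 1)) * h5
    rw [h6, hsq]
  have h1 := hB (rv P f)
  rw [hz, hz2, normSq_rv P g2 hg2P, normSq_rv Q g hgQ, hsumP, hsumQ, Fin.sum_univ_succ, hg20,
    Finset.sum_congr rfl fun j _ => hg2s j, Finset.sum_congr rfl fun j _ => by rw [hgq, hsq],
    Fin.sum_univ_eq_sum_range (fun j => (d j - d (j + 1)) ^ 2) M,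
    Fin.sum_univ_eq_sum_range (fun j => d j ^ 2) M] at h1
  norm_num at h1
  exact h1

/-- the tent -/
noncomputable def tt (h j : ℕ) : ℝ := ((min j (2 * h - j) : ℕ) : ℝ)

/-- the double tent -/
noncomputable def dt (h j : ℕ) : ℝ := if j < 2 * h then tt h j else - tt h (j - 2 * h)

theorem tt_step (h j : ℕ) : (tt h j - tt h (j + 1)) ^ 2 ≤ 1 := by
  unfold tt
  rcases Nat.lt_or_ge j h with h7 | h7
  · rw [min_eq_left (by omega), min_eq_left (by omega)]
    push_cast
    norm_num
  · rcases Nat.lt_or_ge j (2 * h) with h8 | h8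
    · rw [min_eq_right (by omega), min_eq_right (by omega)]
      have : 2 * h - (j : ℕ) = 2 * h - (j + 1) + 1 := by omega
      rw [this]; push_cast; norm_num
    · have e1 : min j (2 * h - j) = 0 := by omega
      have e2 : min (j + 1) (2 * h - (j + 1)) = 0 := by omega
      rw [e1, e2]
      norm_num

theorem dt_step (h j : ℕ) : (dt h j - dt h (j + 1)) ^ 2 ≤ 1 := by
  unfold dt
  rcases Nat.lt_or_ge (j + 1) (2 * h) with h7 | h7
  · rw [if_pos h7, if_pos (by omega)]
    exact tt_step h j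
  · rcases Nat.lt_or_ge j (2 * h) with h8 | h8
    · have h9 : j + 1 = 2 * h := by omega
      rw [if_pos h8, if_neg (by omega), h9, Nat.sub_self]
      unfold tt
      have e1 : min j (2 * h - j) = 1 := by omega
      have e2 : min 0 (2 * h - 0) = 0 := by omega
      rw [e1, e2]
      norm_num
    · rw [if_neg (by omega), if_neg (by omega)]
      have h9 : j + 1 - 2 * h = (j - 2 * h) + 1 := by omega
      rw [h9]
      have := tt_step h (j - 2 * h)
      nlinarith

theorem t_tent : S_tent := by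
  intro G _ ι κ _ _ _ _ A t δ ht0 ht hδ0 hA N a o hT hδ D hB h hh hN
  have hsplit : ∀ F : ℝ → ℝ, ∑ j ∈ Finset.range (4 * h), F (dt h j) =
      ∑ j ∈ Finset.range (2 * h), F (tt h j) + ∑ j ∈ Finset.range (2 * h), F (- tt h j) := by
    intro F
    have h1 : 4 * h = 2 * h + 2 * h := by ring
    rw [h1, Finset.sum_range_add]
    congr 1
    · refine Finset.sum_congr rfl fun j hj => ?_
      unfold dt
      rw [if_pos (Finset.mem_range.1 hj)]
    · refine Finset.sum_congr rfl fun j hj => ?_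
      unfold dt
      rw [if_neg (by omega), Nat.add_sub_cancel_left]
  have hts : 3 * ∑ j ∈ Finset.range (2 * h), tt h j ^ 2 = 2 * (h : ℝ) ^ 3 + h := by
    rw [← tent_sum h, Finset.sum_range_succ]
    have : ((min (2 * h) (2 * h - 2 * h) : ℕ) : ℝ) = 0 := by
      rw [Nat.sub_self]
      simp
    rw [this, zero_pow two_ne_zero, add_zero]
    rfl
  have h1 := tent_gen A t δ ht0 ht hδ0 hA hT hδ D hB (4 * h) (by omega)
    (fun j => - ∑ i ∈ Finset.range j, dt h i) (dt h) (by simp) (by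
      have := hsplit (fun x => x)
      rw [this, ← Finset.sum_add_distrib]
      simp) (fun j _ => by
        rw [Finset.sum_range_succ]
        ring) (by
        unfold dt tt
        rw [if_pos (by omega)]
        simp) (by
        unfold dt tt
        rw [if_neg (by omega)]
        have : min (4 * h - 2 * h) (2 * h - (4 * h - 2 * h)) = 0 := by omega
        rw [this]
        simp)
  have h2 := hsplit (fun x => x ^ 2)
  simp only [neg_sq] at h2
  rw [h2] at h1
  have h3 : ∑ j ∈ Finset.range (4 * h), (dt h j - dt h (j + 1)) ^ 2 ≤ 4 * h := by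
    refine (Finset.sum_le_sum fun j _ => dt_step h j).trans ?_
    simp
  have h5 : 0 ≤ ∑ j ∈ Finset.range (4 * h), (dt h j - dt h (j + 1)) ^ 2 :=
    Finset.sum_nonneg fun _ _ => sq_nonneg _
  have hh' : (1 : ℝ) ≤ h := by exact_mod_cast hh
  have h7 : 0 < 2 * (h : ℝ) ^ 3 + h := by positivity
  have hD : 0 ≤ D := by
    by_contra hcon
    push Not at hcon
    nlinarith
  have h8 : D * ∑ j ∈ Finset.range (4 * h), (dt h j - dt h (j + 1)) ^ 2 ≤ D * (4 * h) :=
    mul_le_mul_of_nonneg_left h3 hD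
  have h9 : (2 * (h : ℝ) ^ 2 + 1) * h ≤ (6 * D) * h := by nlinarith
  exact le_of_mul_le_mul_right h9 (by linarith)

end Pool.Agent.Q26.LG
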